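import Pool.Graph.R_pool_sql_team_seeded_3997aac3.Results.MP_791b9a_al.PropermutableSubgroups
import Pool.Agent.KS7_39.D54.WP

/-!
# 2-nilpotency from weakly propermutable subgroups of a Sylow 2-subgroup
-/

set_option autoImplicit false

namespace Pool.Agent.Results.MP_791b9a_al.WeakPermutability

open Subgroup Pointwise
open Pool.Agent.Results.MP_791b9a_al.PropermutableSubgroups (Permute Propermutable TwoNilpotent)

/-- `H` is weakly propermutable in `G`: there is a subgroup `B` with `G = N_G(H) B` such that `H`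
permutes with `B` and with every cyclic subgroup of `B` whose order is a power of an odd prime. (For
propermutability `H` has to permute with every subgroup of `B`.) -/
def WeaklyPropermutable {G : Type} [Group G] (H : Subgroup G) : Prop :=
  ∃ B : Subgroup G, ((normalizer (H : Set G) : Subgroup G) : Set G) * (B : Set G) = Set.univ ∧
    Permute H B ∧
    ∀ x ∈ B, (∃ q m : ℕ, q.Prime ∧ q ≠ 2 ∧ orderOf x = q ^ m) → Permute H (zpowers x)

theorem pm_of_permute {G : Type} [Group G] {H X : Subgroup G} (h : Permute H X) : Q2.PM.Pm H X := by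
  intro a ha x hx
  have h3 : a * x ∈ (X : Set G) * (H : Set G) := by
    rw [← h]
    exact Set.mul_mem_mul ha hx
  obtain ⟨x', hx', a', ha', he⟩ := Set.mem_mul.1 h3
  exact ⟨x', hx', a', ha', he.symm⟩

theorem wpro_of {G : Type} [Group G] {H : Subgroup G} (h : WeaklyPropermutable H) :
    KS7_39.D54.WPro H := by
  obtain ⟨B, h1, h2, h3⟩ := h
  refine ⟨B, ?_, pm_of_permute h2, ?_⟩
  · intro g
    have h3 : g ∈ ((normalizer (H : Set G) : Subgroup G) : Set G) * (B : Set G) := by
      rw [h1]; exact Set.mem_univ g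
    obtain ⟨n, hn, b, hb, he⟩ := Set.mem_mul.1 h3
    exact ⟨n, hn, b, hb, he.symm⟩
  · rintro q hq hq2 x hx ⟨m, hm⟩
    obtain ⟨j, -, hj⟩ := (Nat.dvd_prime_pow hq).1 (orderOf_dvd_of_pow_eq_one hm)
    exact pm_of_permute (h3 x hx ⟨q, j, hq, hq2, hj⟩)

/-- propermutable subgroups are weakly propermutable -/
theorem weak {G : Type} [Group G] {H : Subgroup G} (h : Propermutable H) :
    WeaklyPropermutable H := by
  obtain ⟨B, h1, h2⟩ := h
  exact ⟨B, h1, h2 B le_rfl, fun x hx _ => h2 _ (zpowers_le.2 hx)⟩

/-- Let `P` be a Sylow 2-subgroup of the finite group `G`, `|P| = 2 ^ n` and `1 < k < n`. If every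
subgroup of `P` of order `2 ^ k` is weakly propermutable in `G`, then `G` is 2-nilpotent. (The second
clause records that every propermutable subgroup is weakly propermutable.) -/
theorem result (G : Type) [Group G] [Finite G] (P : Sylow 2 G) (n k : ℕ) (hn : Nat.card P = 2 ^ n)
    (hk : 1 < k) (hkn : k < n) :
    ((∀ H : Subgroup G, H ≤ (P : Subgroup G) → Nat.card H = 2 ^ k → WeaklyPropermutable H) →
      TwoNilpotent G) ∧
    ∀ H : Subgroup G, Propermutable H → WeaklyPropermutable H := by
  refine ⟨fun h => ?_, fun H => weak⟩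
  apply PropermutableSubgroups.nil_of
  refine KS7_39.D54.main k G (P : Subgroup G) hk ⟨P.isPGroup', P.not_dvd_index⟩ ?_ ?_
  · rw [show Nat.card (P : Subgroup G) = 2 ^ n from hn]
    exact Nat.pow_lt_pow_right (by norm_num) hkn
  · intro H hH hc
    exact wpro_of (h H hH hc)

end Pool.Agent.Results.MP_791b9a_al.WeakPermutability
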